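import Pool.Agent.Lib.MP_afdd4d_co.K10.EB.C0
import Pool.Agent.Lib.MP_afdd4d_co.K10.EB.C1
import Pool.Agent.Lib.MP_afdd4d_co.K10.EB.C2
import Pool.Agent.Lib.MP_afdd4d_co.K10.EB.C3
import Pool.Agent.Lib.MP_afdd4d_co.K10.EB.C4
import Pool.Agent.Lib.MP_afdd4d_co.K10.EB.C5
import Pool.Agent.Lib.MP_afdd4d_co.K10.EB.C6
import Pool.Agent.Lib.MP_afdd4d_co.K10.EB.C7
import Pool.Agent.Lib.MP_afdd4d_co.K10.EB.C8
import Pool.Agent.Lib.MP_afdd4d_co.K10.EB.C9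
import Pool.Agent.Lib.MP_afdd4d_co.K10.EB.C10
import Pool.Agent.Lib.MP_afdd4d_co.K10.EB.C11
import Pool.Agent.Lib.MP_afdd4d_co.K10.EB.C12
import Pool.Agent.Lib.MP_afdd4d_co.K10.EB.C13
import Pool.Agent.Lib.MP_afdd4d_co.K10.EB.C14
import Pool.Agent.Lib.MP_afdd4d_co.K10.EB.C15
import Pool.Agent.Lib.MP_afdd4d_co.K10.EB.C16
import Pool.Agent.Lib.MP_afdd4d_co.K10.EB.C17
import Pool.Agent.Lib.MP_afdd4d_co.K10.EB.C18
import Pool.Agent.Lib.MP_afdd4d_co.K10.EB.C19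
import Pool.Agent.Lib.MP_afdd4d_co.K10.EB.C20
import Pool.Agent.Lib.MP_afdd4d_co.K10.EB.C21
import Pool.Agent.Lib.MP_afdd4d_co.K10.EB.C22
import Pool.Agent.Lib.MP_afdd4d_co.K10.EB.C23
import Pool.Agent.Lib.MP_afdd4d_co.K10.EB.C24
import Pool.Agent.Lib.MP_afdd4d_co.K10.EB.C25
import Pool.Agent.Lib.MP_afdd4d_co.K10.EB.C26
import Pool.Agent.Lib.MP_afdd4d_co.K10.EB.C27
import Pool.Agent.Lib.MP_afdd4d_co.K10.EB.C28
import Pool.Agent.Lib.MP_afdd4d_co.K10.EB.C29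
import Pool.Agent.Lib.MP_afdd4d_co.K10.EB.C30
import Pool.Agent.Lib.MP_afdd4d_co.K10.EB.C31
import Pool.Agent.Lib.MP_afdd4d_co.K10.EB.C32
import Pool.Agent.Lib.MP_afdd4d_co.K10.EB.C33
import Pool.Agent.Lib.MP_afdd4d_co.K10.EB.C34
import Pool.Agent.Lib.MP_afdd4d_co.K10.EB.C35
import Pool.Agent.Lib.MP_afdd4d_co.K10.EB.C36
import Pool.Agent.Lib.MP_afdd4d_co.K10.EB.C37
import Pool.Agent.Lib.MP_afdd4d_co.K10.EB.C38
import Pool.Agent.Lib.MP_afdd4d_co.K10.EB.C39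
import Pool.Agent.Lib.MP_afdd4d_co.K10.EB.C40
import Pool.Agent.Lib.MP_afdd4d_co.K10.EB.C41
import Pool.Agent.Lib.MP_afdd4d_co.K10.EB.C42
import Pool.Agent.Lib.MP_afdd4d_co.K10.EB.C43
import Pool.Agent.Lib.MP_afdd4d_co.K10.EB.C44
import Pool.Agent.Lib.MP_afdd4d_co.K10.EB.C45
import Pool.Agent.Lib.MP_afdd4d_co.K10.EB.C46
import Pool.Agent.Lib.MP_afdd4d_co.K10.EB.C47
import Pool.Agent.Lib.MP_afdd4d_co.K10.EB.C48
import Pool.Agent.Lib.MP_afdd4d_co.K10.EB.C49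
import Pool.Agent.Lib.MP_afdd4d_co.K10.EB.C50
import Pool.Agent.Lib.MP_afdd4d_co.K10.EB.C51
import Pool.Agent.Lib.MP_afdd4d_co.K10.EB.C52
import Pool.Agent.Lib.MP_afdd4d_co.K10.EB.C53
import Pool.Agent.Lib.MP_afdd4d_co.K10.EB.C54
import Pool.Agent.Lib.MP_afdd4d_co.K10.EB.C55
import Pool.Agent.Lib.MP_afdd4d_co.K10.EB.C56
import Pool.Agent.Lib.MP_afdd4d_co.K10.EB.C57
import Pool.Agent.Lib.MP_afdd4d_co.K10.EB.C58
import Pool.Agent.Lib.MP_afdd4d_co.K10.EB.C59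
import Pool.Agent.Lib.MP_afdd4d_co.K10.EB.C60
import Pool.Agent.Lib.MP_afdd4d_co.K10.EB.C61
import Pool.Agent.Lib.MP_afdd4d_co.K10.EB.C62
import Pool.Agent.Lib.MP_afdd4d_co.K10.EB.C63
import Pool.Agent.Lib.MP_afdd4d_co.K10.EB.C64
import Pool.Agent.Lib.MP_afdd4d_co.K10.EB.C65
import Pool.Agent.Lib.MP_afdd4d_co.K10.EB.C66
import Pool.Agent.Lib.MP_afdd4d_co.K10.EB.C67
import Pool.Agent.Lib.MP_afdd4d_co.K10.EB.C68
import Pool.Agent.Lib.MP_afdd4d_co.K10.EB.C69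
import Pool.Agent.Lib.MP_afdd4d_co.K10.EB.C70
import Pool.Agent.Lib.MP_afdd4d_co.K8.Tab

/-!
# All checks
-/

namespace Pool.Agent.Lib.MP_afdd4d_co.K10.EB

open K8

theorem ev_parts : ∀ j < 423, (part 1 j reps).all one = true := by
  intro j hj
  interval_cases j
  · exact ev0.1
  · exact ev0.2.1
  · exact ev0.2.2.1
  · exact ev0.2.2.2.1
  · exact ev0.2.2.2.2.1
  · exact ev0.2.2.2.2.2
  · exact ev1.1
  · exact ev1.2.1
  · exact ev1.2.2.1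
  · exact ev1.2.2.2.1
  · exact ev1.2.2.2.2.1
  · exact ev1.2.2.2.2.2
  · exact ev2.1
  · exact ev2.2.1
  · exact ev2.2.2.1
  · exact ev2.2.2.2.1
  · exact ev2.2.2.2.2.1
  · exact ev2.2.2.2.2.2
  · exact ev3.1
  · exact ev3.2.1
  · exact ev3.2.2.1
  · exact ev3.2.2.2.1
  · exact ev3.2.2.2.2.1
  · exact ev3.2.2.2.2.2
  · exact ev4.1
  · exact ev4.2.1
  · exact ev4.2.2.1
  · exact ev4.2.2.2.1
  · exact ev4.2.2.2.2.1
  · exact ev4.2.2.2.2.2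
  · exact ev5.1
  · exact ev5.2.1
  · exact ev5.2.2.1
  · exact ev5.2.2.2.1
  · exact ev5.2.2.2.2.1
  · exact ev5.2.2.2.2.2
  · exact ev6.1
  · exact ev6.2.1
  · exact ev6.2.2.1
  · exact ev6.2.2.2.1
  · exact ev6.2.2.2.2.1
  · exact ev6.2.2.2.2.2
  · exact ev7.1
  · exact ev7.2.1
  · exact ev7.2.2.1
  · exact ev7.2.2.2.1
  · exact ev7.2.2.2.2.1
  · exact ev7.2.2.2.2.2
  · exact ev8.1
  · exact ev8.2.1
  · exact ev8.2.2.1
  · exact ev8.2.2.2.1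
  · exact ev8.2.2.2.2.1
  · exact ev8.2.2.2.2.2
  · exact ev9.1
  · exact ev9.2.1
  · exact ev9.2.2.1
  · exact ev9.2.2.2.1
  · exact ev9.2.2.2.2.1
  · exact ev9.2.2.2.2.2
  · exact ev10.1
  · exact ev10.2.1
  · exact ev10.2.2.1
  · exact ev10.2.2.2.1
  · exact ev10.2.2.2.2.1
  · exact ev10.2.2.2.2.2
  · exact ev11.1
  · exact ev11.2.1
  · exact ev11.2.2.1
  · exact ev11.2.2.2.1
  · exact ev11.2.2.2.2.1
  · exact ev11.2.2.2.2.2
  · exact ev12.1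
  · exact ev12.2.1
  · exact ev12.2.2.1
  · exact ev12.2.2.2.1
  · exact ev12.2.2.2.2.1
  · exact ev12.2.2.2.2.2
  · exact ev13.1
  · exact ev13.2.1
  · exact ev13.2.2.1
  · exact ev13.2.2.2.1
  · exact ev13.2.2.2.2.1
  · exact ev13.2.2.2.2.2
  · exact ev14.1
  · exact ev14.2.1
  · exact ev14.2.2.1
  · exact ev14.2.2.2.1
  · exact ev14.2.2.2.2.1
  · exact ev14.2.2.2.2.2
  · exact ev15.1
  · exact ev15.2.1
  · exact ev15.2.2.1
  · exact ev15.2.2.2.1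
  · exact ev15.2.2.2.2.1
  · exact ev15.2.2.2.2.2
  · exact ev16.1
  · exact ev16.2.1
  · exact ev16.2.2.1
  · exact ev16.2.2.2.1
  · exact ev16.2.2.2.2.1
  · exact ev16.2.2.2.2.2
  · exact ev17.1
  · exact ev17.2.1
  · exact ev17.2.2.1
  · exact ev17.2.2.2.1
  · exact ev17.2.2.2.2.1
  · exact ev17.2.2.2.2.2
  · exact ev18.1
  · exact ev18.2.1
  · exact ev18.2.2.1
  · exact ev18.2.2.2.1
  · exact ev18.2.2.2.2.1
  · exact ev18.2.2.2.2.2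
  · exact ev19.1
  · exact ev19.2.1
  · exact ev19.2.2.1
  · exact ev19.2.2.2.1
  · exact ev19.2.2.2.2.1
  · exact ev19.2.2.2.2.2
  · exact ev20.1
  · exact ev20.2.1
  · exact ev20.2.2.1
  · exact ev20.2.2.2.1
  · exact ev20.2.2.2.2.1
  · exact ev20.2.2.2.2.2
  · exact ev21.1
  · exact ev21.2.1
  · exact ev21.2.2.1
  · exact ev21.2.2.2.1
  · exact ev21.2.2.2.2.1
  · exact ev21.2.2.2.2.2
  · exact ev22.1
  · exact ev22.2.1
  · exact ev22.2.2.1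
  · exact ev22.2.2.2.1
  · exact ev22.2.2.2.2.1
  · exact ev22.2.2.2.2.2
  · exact ev23.1
  · exact ev23.2.1
  · exact ev23.2.2.1
  · exact ev23.2.2.2.1
  · exact ev23.2.2.2.2.1
  · exact ev23.2.2.2.2.2
  · exact ev24.1
  · exact ev24.2.1
  · exact ev24.2.2.1
  · exact ev24.2.2.2.1
  · exact ev24.2.2.2.2.1
  · exact ev24.2.2.2.2.2
  · exact ev25.1
  · exact ev25.2.1
  · exact ev25.2.2.1
  · exact ev25.2.2.2.1
  · exact ev25.2.2.2.2.1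
  · exact ev25.2.2.2.2.2
  · exact ev26.1
  · exact ev26.2.1
  · exact ev26.2.2.1
  · exact ev26.2.2.2.1
  · exact ev26.2.2.2.2.1
  · exact ev26.2.2.2.2.2
  · exact ev27.1
  · exact ev27.2.1
  · exact ev27.2.2.1
  · exact ev27.2.2.2.1
  · exact ev27.2.2.2.2.1
  · exact ev27.2.2.2.2.2
  · exact ev28.1
  · exact ev28.2.1
  · exact ev28.2.2.1
  · exact ev28.2.2.2.1
  · exact ev28.2.2.2.2.1
  · exact ev28.2.2.2.2.2
  · exact ev29.1
  · exact ev29.2.1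
  · exact ev29.2.2.1
  · exact ev29.2.2.2.1
  · exact ev29.2.2.2.2.1
  · exact ev29.2.2.2.2.2
  · exact ev30.1
  · exact ev30.2.1
  · exact ev30.2.2.1
  · exact ev30.2.2.2.1
  · exact ev30.2.2.2.2.1
  · exact ev30.2.2.2.2.2
  · exact ev31.1
  · exact ev31.2.1
  · exact ev31.2.2.1
  · exact ev31.2.2.2.1
  · exact ev31.2.2.2.2.1
  · exact ev31.2.2.2.2.2
  · exact ev32.1
  · exact ev32.2.1
  · exact ev32.2.2.1
  · exact ev32.2.2.2.1
  · exact ev32.2.2.2.2.1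
  · exact ev32.2.2.2.2.2
  · exact ev33.1
  · exact ev33.2.1
  · exact ev33.2.2.1
  · exact ev33.2.2.2.1
  · exact ev33.2.2.2.2.1
  · exact ev33.2.2.2.2.2
  · exact ev34.1
  · exact ev34.2.1
  · exact ev34.2.2.1
  · exact ev34.2.2.2.1
  · exact ev34.2.2.2.2.1
  · exact ev34.2.2.2.2.2
  · exact ev35.1
  · exact ev35.2.1
  · exact ev35.2.2.1
  · exact ev35.2.2.2.1
  · exact ev35.2.2.2.2.1
  · exact ev35.2.2.2.2.2
  · exact ev36.1
  · exact ev36.2.1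
  · exact ev36.2.2.1
  · exact ev36.2.2.2.1
  · exact ev36.2.2.2.2.1
  · exact ev36.2.2.2.2.2
  · exact ev37.1
  · exact ev37.2.1
  · exact ev37.2.2.1
  · exact ev37.2.2.2.1
  · exact ev37.2.2.2.2.1
  · exact ev37.2.2.2.2.2
  · exact ev38.1
  · exact ev38.2.1
  · exact ev38.2.2.1
  · exact ev38.2.2.2.1
  · exact ev38.2.2.2.2.1
  · exact ev38.2.2.2.2.2
  · exact ev39.1
  · exact ev39.2.1
  · exact ev39.2.2.1
  · exact ev39.2.2.2.1
  · exact ev39.2.2.2.2.1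
  · exact ev39.2.2.2.2.2
  · exact ev40.1
  · exact ev40.2.1
  · exact ev40.2.2.1
  · exact ev40.2.2.2.1
  · exact ev40.2.2.2.2.1
  · exact ev40.2.2.2.2.2
  · exact ev41.1
  · exact ev41.2.1
  · exact ev41.2.2.1
  · exact ev41.2.2.2.1
  · exact ev41.2.2.2.2.1
  · exact ev41.2.2.2.2.2
  · exact ev42.1
  · exact ev42.2.1
  · exact ev42.2.2.1
  · exact ev42.2.2.2.1
  · exact ev42.2.2.2.2.1
  · exact ev42.2.2.2.2.2
  · exact ev43.1
  · exact ev43.2.1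
  · exact ev43.2.2.1
  · exact ev43.2.2.2.1
  · exact ev43.2.2.2.2.1
  · exact ev43.2.2.2.2.2
  · exact ev44.1
  · exact ev44.2.1
  · exact ev44.2.2.1
  · exact ev44.2.2.2.1
  · exact ev44.2.2.2.2.1
  · exact ev44.2.2.2.2.2
  · exact ev45.1
  · exact ev45.2.1
  · exact ev45.2.2.1
  · exact ev45.2.2.2.1
  · exact ev45.2.2.2.2.1
  · exact ev45.2.2.2.2.2
  · exact ev46.1
  · exact ev46.2.1
  · exact ev46.2.2.1
  · exact ev46.2.2.2.1
  · exact ev46.2.2.2.2.1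
  · exact ev46.2.2.2.2.2
  · exact ev47.1
  · exact ev47.2.1
  · exact ev47.2.2.1
  · exact ev47.2.2.2.1
  · exact ev47.2.2.2.2.1
  · exact ev47.2.2.2.2.2
  · exact ev48.1
  · exact ev48.2.1
  · exact ev48.2.2.1
  · exact ev48.2.2.2.1
  · exact ev48.2.2.2.2.1
  · exact ev48.2.2.2.2.2
  · exact ev49.1
  · exact ev49.2.1
  · exact ev49.2.2.1
  · exact ev49.2.2.2.1
  · exact ev49.2.2.2.2.1
  · exact ev49.2.2.2.2.2
  · exact ev50.1
  · exact ev50.2.1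
  · exact ev50.2.2.1
  · exact ev50.2.2.2.1
  · exact ev50.2.2.2.2.1
  · exact ev50.2.2.2.2.2
  · exact ev51.1
  · exact ev51.2.1
  · exact ev51.2.2.1
  · exact ev51.2.2.2.1
  · exact ev51.2.2.2.2.1
  · exact ev51.2.2.2.2.2
  · exact ev52.1
  · exact ev52.2.1
  · exact ev52.2.2.1
  · exact ev52.2.2.2.1
  · exact ev52.2.2.2.2.1
  · exact ev52.2.2.2.2.2
  · exact ev53.1
  · exact ev53.2.1
  · exact ev53.2.2.1
  · exact ev53.2.2.2.1
  · exact ev53.2.2.2.2.1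
  · exact ev53.2.2.2.2.2
  · exact ev54.1
  · exact ev54.2.1
  · exact ev54.2.2.1
  · exact ev54.2.2.2.1
  · exact ev54.2.2.2.2.1
  · exact ev54.2.2.2.2.2
  · exact ev55.1
  · exact ev55.2.1
  · exact ev55.2.2.1
  · exact ev55.2.2.2.1
  · exact ev55.2.2.2.2.1
  · exact ev55.2.2.2.2.2
  · exact ev56.1
  · exact ev56.2.1
  · exact ev56.2.2.1
  · exact ev56.2.2.2.1
  · exact ev56.2.2.2.2.1
  · exact ev56.2.2.2.2.2
  · exact ev57.1
  · exact ev57.2.1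
  · exact ev57.2.2.1
  · exact ev57.2.2.2.1
  · exact ev57.2.2.2.2.1
  · exact ev57.2.2.2.2.2
  · exact ev58.1
  · exact ev58.2.1
  · exact ev58.2.2.1
  · exact ev58.2.2.2.1
  · exact ev58.2.2.2.2.1
  · exact ev58.2.2.2.2.2
  · exact ev59.1
  · exact ev59.2.1
  · exact ev59.2.2.1
  · exact ev59.2.2.2.1
  · exact ev59.2.2.2.2.1
  · exact ev59.2.2.2.2.2
  · exact ev60.1
  · exact ev60.2.1
  · exact ev60.2.2.1
  · exact ev60.2.2.2.1
  · exact ev60.2.2.2.2.1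
  · exact ev60.2.2.2.2.2
  · exact ev61.1
  · exact ev61.2.1
  · exact ev61.2.2.1
  · exact ev61.2.2.2.1
  · exact ev61.2.2.2.2.1
  · exact ev61.2.2.2.2.2
  · exact ev62.1
  · exact ev62.2.1
  · exact ev62.2.2.1
  · exact ev62.2.2.2.1
  · exact ev62.2.2.2.2.1
  · exact ev62.2.2.2.2.2
  · exact ev63.1
  · exact ev63.2.1
  · exact ev63.2.2.1
  · exact ev63.2.2.2.1
  · exact ev63.2.2.2.2.1
  · exact ev63.2.2.2.2.2
  · exact ev64.1
  · exact ev64.2.1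
  · exact ev64.2.2.1
  · exact ev64.2.2.2.1
  · exact ev64.2.2.2.2.1
  · exact ev64.2.2.2.2.2
  · exact ev65.1
  · exact ev65.2.1
  · exact ev65.2.2.1
  · exact ev65.2.2.2.1
  · exact ev65.2.2.2.2.1
  · exact ev65.2.2.2.2.2
  · exact ev66.1
  · exact ev66.2.1
  · exact ev66.2.2.1
  · exact ev66.2.2.2.1
  · exact ev66.2.2.2.2.1
  · exact ev66.2.2.2.2.2
  · exact ev67.1
  · exact ev67.2.1
  · exact ev67.2.2.1
  · exact ev67.2.2.2.1
  · exact ev67.2.2.2.2.1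
  · exact ev67.2.2.2.2.2
  · exact ev68.1
  · exact ev68.2.1
  · exact ev68.2.2.1
  · exact ev68.2.2.2.1
  · exact ev68.2.2.2.2.1
  · exact ev68.2.2.2.2.2
  · exact ev69.1
  · exact ev69.2.1
  · exact ev69.2.2.1
  · exact ev69.2.2.2.1
  · exact ev69.2.2.2.2.1
  · exact ev69.2.2.2.2.2
  · exact ev70.1
  · exact ev70.2.1
  · exact ev70.2.2

theorem ev_all : ∀ c ∈ reps, one c = true :=
  all_parts one 1 423 (by norm_num) reps (by rw [reps_len]) ev_parts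

end Pool.Agent.Lib.MP_afdd4d_co.K10.EB
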