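import Pool.Agent.Lib.MP_afdd4d_co.K10.EBAll
import Pool.Agent.Lib.MP_afdd4d_co.K10.E6.Tb
import Pool.Agent.Lib.MP_afdd4d_co.K8.EvB

/-!
# The local inequalities on eight-tuples of even 4-graphs
-/

namespace Pool.Agent.Lib.MP_afdd4d_co.K10.EB

open Finset K8

theorem B2_val : B2 = 36922737178559 := rfl

theorem gN_le (p x y : ℕ) : gN E6.D.g 35184372088832 p x y ≤ 2 * 35184372088832 := by
  unfold gN
  have h := abs_le.mp (TF.g_abs E6.rowsOK (p + 1024 * x) (p + 1024 * y))
  have hB : ((E6.D.B : ℕ) : ℤ) = 35184372088832 := rfl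
  rw [Int.toNat_le]
  push_cast
  linarith [h.2]

/-- The data of the check. -/
noncomputable def C : ChkB where
  κ6 := E6.D.kern E6.rowsOK E6.psdOK
  g := E6.D.g
  v := v
  O := 35184372088832
  O' := 35184372088832
  B2 := B2
  Q := Q
  bk := bk
  row := row
  W := 64
  hW := by norm_num
  hk6 := fun H => E6.D.kern_f E6.rowsOK E6.psdOK H
  hs := TF.g_symm E6.numOK E6.symOK
  hO := TF.g_abs E6.rowsOK
  hQ2 := fun _ => VQ_le _
  hp6 := fun H τ s u w => TF.evk_g_perm E6.invOK H τ s u w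
  hQ := fun c => v_eq (cix c) (cix_lt' c)
  hbd := by rw [B2_val]; norm_num
  hbk := fun p hp x0 hx y0 hy =>
    (BF.blkH_ar E6.rowsOK E6.prOK E6.eOK (BE.tbH E6.TB) E6.tb_ok p x0 y0 hp hx hy).congr
      fun _ => (TF.gN_eq E6.D _ _ _ _ hp).symm
  hrow := fun c _ => by
    refine Ar.add (TF.row_ar E6.rowsOK E6.prOK (c % 1024) (c / 1024)
      (Nat.mod_lt _ (by norm_num))) (row7_ar VQ (c % 1024) (by norm_num)
      (Nat.mod_lt _ (by norm_num))) (by norm_num) ?_
    intro b
    have h1 := gN_le (c % 1024) (c / 1024) (idx 10 b)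
    have h2 := VQ_le (cix (c % 1024 + 1024 * idx 10 b))
    rw [B2_val] at h2
    calc gN E6.D.g 35184372088832 (c % 1024) (c / 1024) (idx 10 b) +
        Ln 64 VQ (cix (c % 1024 + 1024 * idx 10 b)) ≤ 2 * 35184372088832 + 36922737178559 :=
          Nat.add_le_add h1 h2
      _ < 2 ^ 64 := by norm_num

theorem one_eq (c : ℕ) : C.one c = one c := by
  have h1 : C.W = 64 := rfl
  have h2 : C.O = 35184372088832 := rfl
  have h3 : C.O' = 35184372088832 := rfl
  have h4 : C.Q = Q := rfl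
  have h5 : C.bk = bk := rfl
  have h6 : C.row = row := by
    unfold C
    with_reducible rfl
  unfold ChkB.one one
  rw [h1, h2, h3, h4, h5, h6]

theorem Q_le (c : ℕ) : C.Q c ≤ 28 * C.O + 8 * C.O' := by
  have h : C.Q c ≤ B2 := VQ_le _
  rw [B2_val] at h
  have e : 28 * C.O + 8 * C.O' = 1266637395197952 := rfl
  rw [e]
  exact le_trans h (by norm_num)

/-- The local inequalities for even 4-graphs. -/
theorem hE {n : ℕ} (H : Finset (Finset (Fin n))) (hH : EvenH n H) (t : Fin (7 + 1) → Fin n)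
    (ht : Function.Injective t) : PS (C.κ6.f H) t ≤ DS (m := 7) (BV H v) t :=
  C.hB (fun c _ => Q_le c) (fun c hc => by rw [one_eq]; exact ev_all c hc) H hH t ht

end Pool.Agent.Lib.MP_afdd4d_co.K10.EB
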