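import Pool.Agent.Lib.MP_afdd4d_co.K10.E6.TbD
import Pool.Agent.Lib.MP_afdd4d_co.K10.EBVal
import Pool.Agent.Lib.MP_afdd4d_co.K8.Part

/-!
# The check of one base with the data
-/

namespace Pool.Agent.Lib.MP_afdd4d_co.K10.EB

open K8

/-- The blocks. -/
noncomputable def bk (p x0 y0 : ℕ) : ℕ := E6.E.blkH 64 35184372088832 (BE.tbH E6.TB) p x0 y0

/-- The rows. -/
noncomputable def row (c : ℕ) : ℕ :=
  Nat.add (E6.D.rowC (Nat.mod c 1024) (Nat.div c 1024)) (row7 64 VQ (Nat.mod c 1024))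

/-- The check. -/
noncomputable def one (c : ℕ) : Bool :=
  leG 64 15 (Nat.sub (Nat.add (Nat.mul 28 35184372088832) (Nat.mul 8 35184372088832)) (Q c))
    (arG 64 (tabG 64 bk) row wd c)

end Pool.Agent.Lib.MP_afdd4d_co.K10.EB
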