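import Pool.Agent.Lib.MP_afdd4d_co.L9.Asm
import Pool.Agent.Lib.MP_afdd4d_co.K10.RN.Near
import Pool.Agent.Lib.MP_afdd4d_co.K10.RP.Far
import Pool.Agent.Lib.MP_afdd4d_co.K10.EBFin
import Pool.Agent.Lib.MP_afdd4d_co.K10.LR.Fin

/-!
# The value of the Turan density

The rows of the 4-graphs, the rows of the even 4-graphs and the rows of the links are put together.
-/

namespace Pool.Agent.Lib.MP_afdd4d_co.K10

open Finset K8 K8.L9

/-- The lanes of the three class functions of the even 4-graphs. -/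
theorem v_chk : allN (fun k => Nat.beq
    (Nat.add (Nat.add (lnG 64 BT.VB k) (Nat.mul 2 (lnG 64 LR.VQ k))) 70368744177664)
    (Nat.add (Nat.add (lnG 64 EB.VB k) 35184372088832) (Nat.mul 2 LR.OB))) 423 = true := by
  decide +kernel

theorem v_eq (k : ℕ) (hk : k < 423) : BT.v k - LR.I.vB k = EB.v k :=
  v_sub BT.VB EB.VB LR.VQ 35184372088832 70368744177664 LR.OB v_chk k hk

theorem near : ∀ k < 7, ∀ c ∈ nearLL k, (TH.D0.T.sys RS.S0).RowJ (jset c) := RN.near

theorem far : ∀ c ∈ lks cosN 54, Pt.Far (TH.D0.T.sys RS.S0) c 7 := RP.far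

/-- The value of the Turan density of the complete 4-graph on five vertices. -/
theorem main :
    ∀ ε : ℝ, 0 < ε → ∃ N : ℕ, ∀ n : ℕ, N ≤ n →
      (∃ H : Finset (Finset (Fin n)),
          (∀ e ∈ H, e.card = 4) ∧
          (∀ S : Finset (Fin n), S.card = 5 → ∃ e ∈ S.powersetCard 4, e ∉ H) ∧
          ((11 / 16 : ℝ) - ε) * ((n.choose 4 : ℕ) : ℝ) ≤ (H.card : ℝ)) ∧
      (∀ H : Finset (Finset (Fin n)),
          (∀ e ∈ H, e.card = 4) →
          (∀ S : Finset (Fin n), S.card = 5 → ∃ e ∈ S.powersetCard 4, e ∉ H) →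
          (H.card : ℝ) ≤ ((11 / 16 : ℝ) + ε) * ((n.choose 4 : ℕ) : ℝ)) :=
  density_of TH.D0 RS.S0 RS.S0_lam EB.C.κ6 BT.v EB.v RS.S0_B EB.hE LR.I v_eq TH.M_eq LR.hall
    near far

end Pool.Agent.Lib.MP_afdd4d_co.K10
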