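/-!
# Numbers from words of sixty bits
-/

namespace Pool.Agent.Lib.MP_afdd4d_co.K10.Wd

/-- Eight words of sixty bits, the lowest first. -/
noncomputable def c8 (a b c d e f g h : Nat) : Nat :=
  Nat.add a (Nat.shiftLeft (Nat.add b (Nat.shiftLeft (Nat.add c (Nat.shiftLeft (Nat.add d
    (Nat.shiftLeft (Nat.add e (Nat.shiftLeft (Nat.add f (Nat.shiftLeft (Nat.add g
      (Nat.shiftLeft h (nat_lit 60))) (nat_lit 60))) (nat_lit 60))) (nat_lit 60))) (nat_lit 60)))
        (nat_lit 60))) (nat_lit 60))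

/-- A number of 480 bits and the part above. -/
noncomputable def cc (a b : Nat) : Nat := Nat.add a (Nat.shiftLeft b (nat_lit 480))

end Pool.Agent.Lib.MP_afdd4d_co.K10.Wd
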